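import Mathlib
import Pool.Agent.Lib.MP_b803e5_al_B.Main

/-!
# MP_b803e5_al: vertex-transitive actions on bridged graphs give shortlex automatic groups

Question Q2 (hence Q1) has a positive answer for every group acting by automorphisms on a locally
finite bridged graph (the 1-skeleton of a systolic complex), transitively on the vertices and with
finite stabilisers.
-/

namespace Pool.Agent.Results.MP_b803e5_al.BridgedTransitive

open Pool.Agent.MP_b803e5_al

/-- Let `G` act by automorphisms on a locally finite bridged graph `X`, transitively on vertices
and with finite stabilisers of vertices. Then `G` is shortlex automatic over some finite monoid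
generating set, for some ordering of it. -/
theorem result {V : Type*} (X : SimpleGraph V) {G : Type*} [Group G] [MulAction G V]
    (hB : IsBridged X) (hfin : ∀ v : V, (X.neighborSet v).Finite)
    (hG : ∀ (g : G) (u v : V), X.Adj u v → X.Adj (g • u) (g • v))
    (htr : ∀ u v : V, ∃ g : G, g • u = v)
    (hst : ∀ v : V, {g : G | g • v = v}.Finite) : ShortlexAutomatic G :=
  shortlexAutomatic_of_bridged hB hfin hG htr hst

end Pool.Agent.Results.MP_b803e5_al.BridgedTransitive
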