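import Mathlib
import Pool.Agent.Lib.MP_b803e5_al.Helly

/-!
# MP_b803e5_al: vertex-transitive actions on Helly graphs give shortlex automatic groups

Question Q2 (hence Q1) has a positive answer for every group acting by automorphisms on a locally
finite Helly graph, transitively on the vertices and with finite stabilisers. This class contains
all Garside groups (braid groups, Artin groups of spherical type), the Artin groups of FC type and
the groups acting properly and transitively on the vertices of a CAT(0) cube complex.
-/

namespace Pool.Agent.Results.MP_b803e5_al.HellyTransitive

open Pool.Agent.MP_b803e5_al

/-- Let `G` act by automorphisms on a locally finite Helly graph `X`, transitively on vertices and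
with finite stabilisers of vertices. Then `G` is shortlex automatic over some finite monoid
generating set, for some ordering of it. -/
theorem result {V : Type*} (X : SimpleGraph V) {G : Type*} [Group G] [MulAction G V]
    (hH : IsHelly X) (hfin : ∀ v : V, (X.neighborSet v).Finite)
    (hG : ∀ (g : G) (u v : V), X.Adj u v → X.Adj (g • u) (g • v))
    (htr : ∀ u v : V, ∃ g : G, g • u = v)
    (hst : ∀ v : V, {g : G | g • v = v}.Finite) : ShortlexAutomatic G :=
  shortlexAutomatic_of_helly hH hfin hG htr hst

end Pool.Agent.Results.MP_b803e5_al.HellyTransitive
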