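import Mathlib
import Pool.Agent.Lib.MP_b803e5_al_P.Fin

/-!
# MP_b803e5_al: vertex-transitive actions on products of lattice quotients (buildings of type
`Ã_n`, Garside groups modulo powers of the Garside element) give shortlex automatic groups

Question Q2 (hence Q1) has a positive answer for every group acting, transitively and with finite
stabilisers, on a finite product of sets each of which is the orbit space of a lattice under a
cofinal, locally finite order automorphism `τ`, preserving the relation: in each factor adjacent or
equal. Two orbits of `τ` are adjacent or equal if they have representatives `L ≤ M ≤ τ L`.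
-/

namespace Pool.Agent.Results.MP_b803e5_al.LatticeQuotients

open Pool.Agent.MP_b803e5_al

/-- For each `i` in a finite set let `V i` be the set of orbits of an order automorphism `τ i` of a
nonempty lattice `𝓛 i`, with `L < τ L`, finite intervals from `L` to `τ L`, and cofinal powers of `τ i`. Let
`G` act on the product of the sets `V i`, transitively and with finite stabilisers, preserving the
relation: in each coordinate adjacent or equal. Then `G` is shortlex automatic over some finite
monoid generating set, for some ordering of it. -/
theorem result {ι : Type*} [Finite ι] {𝓛 V : ι → Type*}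
    [∀ i, Lattice (𝓛 i)] [∀ i, Nonempty (V i)] (τ : ∀ i, 𝓛 i ≃o 𝓛 i) (π : ∀ i, 𝓛 i → V i)
    {G : Type*} [Group G] [MulAction G (∀ i, V i)]
    (h : ∀ i, IsLatticeQuotient (τ i) (π i))
    (hG : ∀ (g : G) (u v : ∀ i, V i), (∀ i, LNear (τ i) (π i) (u i) (v i)) →
      ∀ i, LNear (τ i) (π i) ((g • u) i) ((g • v) i))
    (htr : ∀ u v : ∀ i, V i, ∃ g : G, g • u = v)
    (hst : ∀ v : ∀ i, V i, {g : G | g • v = v}.Finite) : ShortlexAutomatic G :=
  shortlexAutomatic_of_lattices h hG htr hst

end Pool.Agent.Results.MP_b803e5_al.LatticeQuotients
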