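import Mathlib
import Pool.Agent.Lib.MP_b803e5_al_Q.Cor

/-!
# MP_b803e5_al: groups acting on hereditary modular graphs (1-skeletons of quadric complexes)

Question Q2 (hence Q1) has a positive answer for the following groups, over an explicit generating
set, for every ordering of it: `G` acts by automorphisms on a hereditary modular graph, any two
distinct points of the orbit of `x0` are joined by a geodesic whose vertex number `ρ` is again in
the orbit, and only finitely many elements move `x0` by at most `ρ`. For `ρ = 1` this holds as soon
as `G` is transitive on the vertices, for `ρ = 2` as soon as the orbit of `x0` is one of the two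
colour classes (`Pool.Agent.MP_b803e5_al.Quadric.shortlexAutomatic_of_class`).
-/

namespace Pool.Agent.Results.MP_b803e5_al.QuadricActions

open Pool.Agent.MP_b803e5_al

/-- Let `X` be a hereditary modular graph (connected, bipartite, with the quadrangle condition and
without isometric 6-cycle), and let `G` act on `X` by automorphisms. Suppose that for `x0` and
`ρ ≥ 1` every two distinct points of the orbit of `x0` are joined by a geodesic whose vertex number
`ρ` is in the orbit, and that `{g | dist x0 (g x0) ≤ ρ}` is finite. Then `G` is shortlex automatic;
more precisely, for every enumeration `f : Fin n → G` of this set (that is, for every ordering of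
it) the shortlex least words are an automatic structure of `G`. -/
theorem result {V : Type*} (X : SimpleGraph V) {G : Type*} [Group G] [MulAction G V]
    (hX : IsHerModular X) (hG : ∀ (g : G) (u v : V), X.Adj u v → X.Adj (g • u) (g • v))
    (x0 : V) (ρ : ℕ) (hρ : 1 ≤ ρ)
    (horb : ∀ g : G, g • x0 ≠ x0 → ∃ h : G, X.dist x0 (h • x0) = ρ ∧
      X.dist (h • x0) (g • x0) + ρ = X.dist x0 (g • x0))
    (hfin : {g : G | X.dist x0 (g • x0) ≤ ρ}.Finite) :
    ShortlexAutomatic G ∧ ∀ (n : ℕ) (f : Fin n → G),
      Set.range f = {g : G | X.dist x0 (g • x0) ≤ ρ} →
      (∀ g : G, ∃ w : List (Fin n), ev f w = g) ∧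
        IsAutomaticStructure f ({w | IsShortlexLeast f w} : Set (List (Fin n))) := by
  refine ⟨Quadric.shortlexAutomatic hX hG hρ horb hfin, fun n f hf => ?_⟩
  refine Quadric.automatic hX hG hρ horb (fun i => ?_) fun g hg => ?_
  · have h1 : f i ∈ Set.range f := ⟨i, rfl⟩
    rw [hf] at h1
    exact h1
  · have h1 : g ∈ Set.range f := by
      rw [hf]
      exact hg
    exact h1

end Pool.Agent.Results.MP_b803e5_al.QuadricActions
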